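import Mathlib

set_option autoImplicit false

namespace Pool.Agent.Results.MP_360bac_co.ThetaTwoThirds

open Finset

/-- The n by n grid of lattice points with coordinates between 1 and n. -/
noncomputable def grid (n : ℕ) : Finset (ℤ × ℤ) :=
  Finset.Icc (1:ℤ) (n:ℤ) ×ˢ Finset.Icc (1:ℤ) (n:ℤ)

/-- Every point of the grid lies on a line through two distinct points of S. -/
def Covers (n : ℕ) (S : Finset (ℤ × ℤ)) : Prop :=
  ∀ p ∈ grid n, ∃ a ∈ S, ∃ b ∈ S, a ≠ b ∧
    (b.1 - a.1) * (p.2 - a.2) = (b.2 - a.2) * (p.1 - a.1)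

/-- The least size of a subset of the grid which covers the grid. -/
noncomputable def t (n : ℕ) : ℕ :=
  sInf {m : ℕ | ∃ S : Finset (ℤ × ℤ), S ⊆ grid n ∧ S.card = m ∧ Covers n S}

lemma mem_grid {n : ℕ} {p : ℤ × ℤ} :
    p ∈ grid n ↔ (1 ≤ p.1 ∧ p.1 ≤ n) ∧ (1 ≤ p.2 ∧ p.2 ≤ n) := by
  simp [grid, Finset.mem_product, Finset.mem_Icc]

/-- Thue's lemma. -/
lemma thue (k s : ℕ) (hk : 0 < k) (hs : k < (s + 1) ^ 2) (x y : ℤ) :
    ∃ a b : ℤ, ¬ (a = 0 ∧ b = 0) ∧ |a| ≤ s ∧ |b| ≤ s ∧ (k : ℤ) ∣ a * y - b * x := by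
  classical
  let D : Finset (ℤ × ℤ) := Finset.Icc (0:ℤ) s ×ˢ Finset.Icc (0:ℤ) s
  let R : Finset ℤ := Finset.Ico (0:ℤ) k
  have hcard : R.card < D.card := by
    simp only [D, R, Finset.card_product, Int.card_Icc, Int.card_Ico]
    have : ((s:ℤ) + 1 - 0).toNat = s + 1 := by omega
    rw [this]
    have h2 : ((k:ℤ) - 0).toNat = k := by omega
    rw [h2]
    nlinarith
  have hmaps : ∀ v ∈ D, (v.1 * y - v.2 * x) % (k:ℤ) ∈ R := by
    intro v _
    simp only [R, Finset.mem_Ico]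
    have hk' : (0:ℤ) < k := by exact_mod_cast hk
    exact ⟨Int.emod_nonneg _ hk'.ne', Int.emod_lt_of_pos _ hk'⟩
  obtain ⟨v, hv, w, hw, hne, heq⟩ := Finset.exists_ne_map_eq_of_card_lt_of_maps_to hcard hmaps
  simp only [D, Finset.mem_product, Finset.mem_Icc] at hv hw
  refine ⟨v.1 - w.1, v.2 - w.2, ?_, ?_, ?_, ?_⟩
  · rintro ⟨h1, h2⟩
    apply hne
    ext <;> omega
  · rw [abs_le]; constructor <;> omega
  · rw [abs_le]; constructor <;> omega
  · have h3 : (k:ℤ) ∣ (v.1 * y - v.2 * x) - (w.1 * y - w.2 * x) :=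
      Int.ModEq.dvd (n := (k:ℤ)) (Int.ModEq.symm heq)
    have h4 : (v.1 - w.1) * y - (v.2 - w.2) * x = (v.1 * y - v.2 * x) - (w.1 * y - w.2 * x) := by
      ring
    rw [h4]; exact h3

/-- For a prime `k`, a point not divisible by `k` is congruent to a multiple of a short vector. -/
lemma short_dir (k s : ℕ) (hk : k.Prime) (hs : k < (s + 1) ^ 2) (hsk : s < k) (x y : ℤ) :
    ∃ a b : ℤ, ¬ (a = 0 ∧ b = 0) ∧ |a| ≤ s ∧ |b| ≤ s ∧
      ∃ j : ℤ, (k : ℤ) ∣ x - j * a ∧ (k : ℤ) ∣ y - j * b := by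
  obtain ⟨a, b, hne, ha, hb, hdvd⟩ := thue k s hk.pos hs x y
  refine ⟨a, b, hne, ha, hb, ?_⟩
  have hkp : Prime (k : ℤ) := Nat.prime_iff_prime_int.mp hk
  have key : ∀ c : ℤ, c ≠ 0 → |c| ≤ s → IsCoprime c (k:ℤ) := by
    intro c hc hcs
    refine (Prime.coprime_iff_not_dvd hkp |>.mpr ?_).symm
    intro hd
    have := Int.le_of_dvd (abs_pos.mpr hc) ((dvd_abs _ _).mpr hd)
    omega
  by_cases ha0 : a = 0
  · have hb0 : b ≠ 0 := fun h => hne ⟨ha0, h⟩
    obtain ⟨u, v, huv⟩ := key b hb0 hb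
    -- u * b + v * k = 1
    refine ⟨y * u, ?_, ?_⟩
    · subst ha0
      have h1 : (k:ℤ) ∣ b * x := by
        have := hdvd
        simpa using this
      have h2 : (k:ℤ) ∣ x := by
        rcases hkp.dvd_or_dvd h1 with h | h
        · exfalso
          have := Int.le_of_dvd (abs_pos.mpr hb0) ((dvd_abs _ _).mpr h)
          omega
        · exact h
      simpa using h2
    · refine ⟨y * v, ?_⟩
      linear_combination (-y) * huv
  · obtain ⟨u, v, huv⟩ := key a ha0 ha
    refine ⟨x * u, ?_, ?_⟩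
    · refine ⟨x * v, ?_⟩
      linear_combination (-x) * huv
    · -- y - x u b ; b x ≡ a y ; so u b x ≡ u a y ≡ y
      obtain ⟨w, hw⟩ := hdvd
      refine ⟨y * v + u * w, ?_⟩
      linear_combination (-y) * huv + u * hw

/-- Among `k` consecutive integers one is congruent to `j`. -/
lemma exists_step (k : ℕ) (hk : 0 < k) (j : ℤ) :
    ∃ i : ℤ, 0 ≤ i ∧ i < k ∧ (k : ℤ) ∣ i + j := by
  have hk' : (0:ℤ) < k := by exact_mod_cast hk
  refine ⟨(-j) % k, Int.emod_nonneg _ hk'.ne', Int.emod_lt_of_pos _ hk', ?_⟩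
  have : (-j) % (k:ℤ) = -j - k * ((-j) / k) := Int.emod_def _ _
  rw [this]
  exact ⟨-((-j) / k), by ring⟩

/-- The sublattice points in the grid. -/
noncomputable def coarse (n k : ℕ) : Finset (ℤ × ℤ) :=
  (Finset.Icc (1:ℤ) ((n / k : ℕ):ℤ) ×ˢ Finset.Icc (1:ℤ) ((n / k : ℕ):ℤ)).image
    (fun v => ((k:ℤ) * v.1, (k:ℤ) * v.2))

lemma mem_coarse {n k : ℕ} (hk : 0 < k) {p : ℤ × ℤ} (hp : p ∈ grid n)
    (h1 : (k:ℤ) ∣ p.1) (h2 : (k:ℤ) ∣ p.2) : p ∈ coarse n k := by
  have hk' : (0:ℤ) < k := by exact_mod_cast hk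
  rw [mem_grid] at hp
  obtain ⟨u, hu⟩ := h1
  obtain ⟨v, hv⟩ := h2
  unfold coarse
  rw [Finset.mem_image]
  refine ⟨(u, v), ?_, by ext <;> simp [hu, hv]⟩
  simp only [Finset.mem_product, Finset.mem_Icc]
  have hcast : ((n / k : ℕ) : ℤ) = (n : ℤ) / (k : ℤ) := by simp
  rw [hcast]
  refine ⟨⟨?_, ?_⟩, ?_, ?_⟩
  · by_contra hlt
    push Not at hlt
    have : u ≤ 0 := by omega
    nlinarith
  · rw [Int.le_ediv_iff_mul_le hk']
    nlinarith
  · by_contra hlt
    push Not at hlt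
    have : v ≤ 0 := by omega
    nlinarith
  · rw [Int.le_ediv_iff_mul_le hk']
    nlinarith

lemma coarse_subset {n k : ℕ} (hk : 0 < k) : coarse n k ⊆ grid n := by
  have hk' : (0:ℤ) < k := by exact_mod_cast hk
  intro p hp
  unfold coarse at hp
  rw [Finset.mem_image] at hp
  obtain ⟨v, hv, rfl⟩ := hp
  simp only [Finset.mem_product, Finset.mem_Icc] at hv
  have hcast : ((n / k : ℕ) : ℤ) = (n : ℤ) / (k : ℤ) := by simp
  rw [hcast] at hv
  obtain ⟨⟨h1, h2⟩, h3, h4⟩ := hv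
  rw [Int.le_ediv_iff_mul_le hk'] at h2 h4
  rw [mem_grid]
  refine ⟨⟨?_, ?_⟩, ?_, ?_⟩
  · show (1:ℤ) ≤ k * v.1
    nlinarith
  · show (k:ℤ) * v.1 ≤ n
    nlinarith
  · show (1:ℤ) ≤ k * v.2
    nlinarith
  · show (k:ℤ) * v.2 ≤ n
    nlinarith

lemma coarse_card (n k : ℕ) : (coarse n k).card ≤ (n / k) ^ 2 := by
  unfold coarse
  refine le_trans Finset.card_image_le ?_
  rw [Finset.card_product]
  simp only [Int.card_Icc]
  have : (((n / k : ℕ):ℤ) + 1 - 1).toNat = n / k := by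
    rw [add_sub_cancel_right]
    exact Int.toNat_natCast _
  rw [this]
  exact le_of_eq (by ring)

/-- Central points are covered by the coarse sublattice. -/
lemma central_cover (n k s : ℕ) (hk : k.Prime) (hs : k < (s + 1) ^ 2) (hsk : s < k)
    (hn : 4 * (k * s) ≤ n) (p : ℤ × ℤ) (hp : p ∈ grid n)
    (hc : (2 * (k * s : ℤ) < p.1 ∧ p.1 ≤ n - 2 * (k * s : ℤ)) ∨
      (2 * (k * s : ℤ) < p.2 ∧ p.2 ≤ n - 2 * (k * s : ℤ))) :
    ∃ a ∈ coarse n k, ∃ b ∈ coarse n k, a ≠ b ∧
      (b.1 - a.1) * (p.2 - a.2) = (b.2 - a.2) * (p.1 - a.1) := by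
  have hk' : (0:ℤ) < k := by exact_mod_cast hk.pos
  obtain ⟨a0, b0, hne0, ha0, hb0, j0, hj1, hj2⟩ := short_dir k s hk hs hsk p.1 p.2
  -- choose a sign so that the non-central coordinate moves inwards
  have hsign : ∃ a b : ℤ, ¬ (a = 0 ∧ b = 0) ∧ |a| ≤ s ∧ |b| ≤ s ∧
      (∃ j : ℤ, (k : ℤ) ∣ p.1 - j * a ∧ (k : ℤ) ∣ p.2 - j * b) ∧
      (∀ i : ℤ, 0 ≤ i → i < 2 * k → (p.1 + i * a, p.2 + i * b) ∈ grid n) := by
    rw [mem_grid] at hp
    obtain ⟨⟨hx1, hx2⟩, hy1, hy2⟩ := hp
    have hnn : 4 * ((k:ℤ) * s) ≤ n := by exact_mod_cast hn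
    have bound : ∀ c : ℤ, |c| ≤ s → ∀ i : ℤ, 0 ≤ i → i < 2 * k →
        -(2 * ((k:ℤ) * s)) ≤ i * c ∧ i * c ≤ 2 * ((k:ℤ) * s) := by
      intro c hc i hi hi2
      have h1 : |i * c| ≤ 2 * k * s := by
        rw [abs_mul, abs_of_nonneg hi]
        have hs0 : (0:ℤ) ≤ s := by positivity
        have := abs_nonneg c
        nlinarith
      rw [abs_le] at h1
      constructor <;> linarith [h1.1, h1.2]
    rcases hc with hc | hc
    · -- first coordinate central
      by_cases hhalf : 2 * p.2 ≤ n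
      · -- want b ≥ 0
        by_cases hb : 0 ≤ b0
        · refine ⟨a0, b0, hne0, ha0, hb0, ⟨j0, hj1, hj2⟩, ?_⟩
          intro i hi hi2
          have h1 := bound a0 ha0 i hi hi2
          have h2 := bound b0 hb0 i hi hi2
          have h3 : 0 ≤ i * b0 := mul_nonneg hi hb
          rw [mem_grid]
          refine ⟨⟨?_, ?_⟩, ?_, ?_⟩ <;> simp only <;> omega
        · push Not at hb
          refine ⟨-a0, -b0, by simpa using hne0, by simpa using ha0, by simpa using hb0,
            ⟨-j0, by simpa using hj1, by simpa using hj2⟩, ?_⟩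
          intro i hi hi2
          have h1 := bound (-a0) (by simpa using ha0) i hi hi2
          have h2 := bound (-b0) (by simpa using hb0) i hi hi2
          have h3 : 0 ≤ i * (-b0) := mul_nonneg hi (by omega)
          rw [mem_grid]
          refine ⟨⟨?_, ?_⟩, ?_, ?_⟩ <;> simp only <;> omega
      · push Not at hhalf
        by_cases hb : b0 ≤ 0
        · refine ⟨a0, b0, hne0, ha0, hb0, ⟨j0, hj1, hj2⟩, ?_⟩
          intro i hi hi2
          have h1 := bound a0 ha0 i hi hi2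
          have h2 := bound b0 hb0 i hi hi2
          have h3 : 0 ≤ i * (-b0) := mul_nonneg hi (by omega)
          have h4 : i * (-b0) = -(i * b0) := by ring
          rw [mem_grid]
          refine ⟨⟨?_, ?_⟩, ?_, ?_⟩ <;> simp only <;> omega
        · push Not at hb
          refine ⟨-a0, -b0, by simpa using hne0, by simpa using ha0, by simpa using hb0,
            ⟨-j0, by simpa using hj1, by simpa using hj2⟩, ?_⟩
          intro i hi hi2
          have h1 := bound (-a0) (by simpa using ha0) i hi hi2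
          have h2 := bound (-b0) (by simpa using hb0) i hi hi2
          have h3 : 0 ≤ i * b0 := mul_nonneg hi (by omega)
          have h4 : i * (-b0) = -(i * b0) := by ring
          rw [mem_grid]
          refine ⟨⟨?_, ?_⟩, ?_, ?_⟩ <;> simp only <;> omega
    · by_cases hhalf : 2 * p.1 ≤ n
      · by_cases ha : 0 ≤ a0
        · refine ⟨a0, b0, hne0, ha0, hb0, ⟨j0, hj1, hj2⟩, ?_⟩
          intro i hi hi2
          have h1 := bound a0 ha0 i hi hi2
          have h2 := bound b0 hb0 i hi hi2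
          have h3 : 0 ≤ i * a0 := mul_nonneg hi ha
          rw [mem_grid]
          refine ⟨⟨?_, ?_⟩, ?_, ?_⟩ <;> simp only <;> omega
        · push Not at ha
          refine ⟨-a0, -b0, by simpa using hne0, by simpa using ha0, by simpa using hb0,
            ⟨-j0, by simpa using hj1, by simpa using hj2⟩, ?_⟩
          intro i hi hi2
          have h1 := bound (-a0) (by simpa using ha0) i hi hi2
          have h2 := bound (-b0) (by simpa using hb0) i hi hi2
          have h3 : 0 ≤ i * (-a0) := mul_nonneg hi (by omega)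
          rw [mem_grid]
          refine ⟨⟨?_, ?_⟩, ?_, ?_⟩ <;> simp only <;> omega
      · push Not at hhalf
        by_cases ha : a0 ≤ 0
        · refine ⟨a0, b0, hne0, ha0, hb0, ⟨j0, hj1, hj2⟩, ?_⟩
          intro i hi hi2
          have h1 := bound a0 ha0 i hi hi2
          have h2 := bound b0 hb0 i hi hi2
          have h3 : 0 ≤ i * (-a0) := mul_nonneg hi (by omega)
          have h4 : i * (-a0) = -(i * a0) := by ring
          rw [mem_grid]
          refine ⟨⟨?_, ?_⟩, ?_, ?_⟩ <;> simp only <;> omega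
        · push Not at ha
          refine ⟨-a0, -b0, by simpa using hne0, by simpa using ha0, by simpa using hb0,
            ⟨-j0, by simpa using hj1, by simpa using hj2⟩, ?_⟩
          intro i hi hi2
          have h1 := bound (-a0) (by simpa using ha0) i hi hi2
          have h2 := bound (-b0) (by simpa using hb0) i hi hi2
          have h3 : 0 ≤ i * a0 := mul_nonneg hi (by omega)
          have h4 : i * (-a0) = -(i * a0) := by ring
          rw [mem_grid]
          refine ⟨⟨?_, ?_⟩, ?_, ?_⟩ <;> simp only <;> omega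
  obtain ⟨a, b, hne, ha, hb, ⟨j, hj1, hj2⟩, hin⟩ := hsign
  obtain ⟨i, hi0, hik, hij⟩ := exists_step k hk.pos j
  obtain ⟨w, hw⟩ := hij
  obtain ⟨w1, hw1⟩ := hj1
  obtain ⟨w2, hw2⟩ := hj2
  refine ⟨(p.1 + i * a, p.2 + i * b), ?_, (p.1 + (i + k) * a, p.2 + (i + k) * b), ?_, ?_, ?_⟩
  · apply mem_coarse hk.pos
    · exact hin i hi0 (by omega)
    · exact ⟨w1 + w * a, by simp only; linear_combination hw1 + a * hw⟩
    · exact ⟨w2 + w * b, by simp only; linear_combination hw2 + b * hw⟩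
  · apply mem_coarse hk.pos
    · exact hin (i + k) (by omega) (by omega)
    · exact ⟨w1 + w * a + a, by simp only; linear_combination hw1 + a * hw⟩
    · exact ⟨w2 + w * b + b, by simp only; linear_combination hw2 + b * hw⟩
  · intro h
    have h1 := (Prod.mk.inj h).1
    have h2 := (Prod.mk.inj h).2
    apply hne
    constructor
    · have : (k:ℤ) * a = 0 := by linear_combination -h1
      rcases mul_eq_zero.mp this with h | h
      · omega
      · exact h
    · have : (k:ℤ) * b = 0 := by linear_combination -h2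
      rcases mul_eq_zero.mp this with h | h
      · omega
      · exact h
  · simp only
    ring

/-- Translate of a finite set. -/
noncomputable def shift (u v : ℤ) (S : Finset (ℤ × ℤ)) : Finset (ℤ × ℤ) :=
  S.image (fun q => (q.1 + u, q.2 + v))

lemma shift_card (u v : ℤ) (S : Finset (ℤ × ℤ)) : (shift u v S).card ≤ S.card :=
  Finset.card_image_le

lemma shift_cover {m : ℕ} {S : Finset (ℤ × ℤ)} (hcov : Covers m S) (u v : ℤ) (p : ℤ × ℤ)
    (hp : (p.1 - u, p.2 - v) ∈ grid m) :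
    ∃ a ∈ shift u v S, ∃ b ∈ shift u v S, a ≠ b ∧
      (b.1 - a.1) * (p.2 - a.2) = (b.2 - a.2) * (p.1 - a.1) := by
  obtain ⟨a, ha, b, hb, hne, heq⟩ := hcov _ hp
  refine ⟨(a.1 + u, a.2 + v), ?_, (b.1 + u, b.2 + v), ?_, ?_, ?_⟩
  · exact Finset.mem_image.mpr ⟨a, ha, rfl⟩
  · exact Finset.mem_image.mpr ⟨b, hb, rfl⟩
  · intro h
    apply hne
    have h1 := (Prod.mk.inj h).1
    have h2 := (Prod.mk.inj h).2
    ext <;> omega
  · simp only at heq ⊢
    linear_combination heq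

lemma shift_subset {m n : ℕ} {S : Finset (ℤ × ℤ)} (hS : S ⊆ grid m) (u v : ℤ)
    (hu : 0 ≤ u) (hv : 0 ≤ v) (hu2 : u + m ≤ n) (hv2 : v + m ≤ n) :
    shift u v S ⊆ grid n := by
  intro p hp
  obtain ⟨q, hq, rfl⟩ := Finset.mem_image.mp hp
  have := mem_grid.mp (hS hq)
  rw [mem_grid]
  refine ⟨⟨?_, ?_⟩, ?_, ?_⟩ <;> simp only <;> omega

lemma step (n k s : ℕ) (hk : k.Prime) (hs : k < (s + 1) ^ 2) (hsk : s < k)
    (hn : 4 * (k * s) ≤ n) (S : Finset (ℤ × ℤ)) (hS : S ⊆ grid (2 * (k * s)))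
    (hcov : Covers (2 * (k * s)) S) :
    ∃ S' : Finset (ℤ × ℤ), S' ⊆ grid n ∧ Covers n S' ∧ S'.card ≤ (n / k) ^ 2 + 4 * S.card := by
  classical
  set m : ℕ := 2 * (k * s) with hm
  have hmn : m ≤ n := by omega
  let d : ℤ := (n : ℤ) - m
  have hd : 0 ≤ d := by simp only [d]; omega
  let S' : Finset (ℤ × ℤ) :=
    coarse n k ∪ (shift 0 0 S ∪ (shift 0 d S ∪ (shift d 0 S ∪ shift d d S)))
  refine ⟨S', ?_, ?_, ?_⟩
  · refine Finset.union_subset (coarse_subset hk.pos) ?_
    refine Finset.union_subset ?_ (Finset.union_subset ?_ (Finset.union_subset ?_ ?_))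
    all_goals
      apply shift_subset hS <;> omega
  · intro p hp
    have lift : ∀ X : Finset (ℤ × ℤ), X ⊆ S' →
        (∃ a ∈ X, ∃ b ∈ X, a ≠ b ∧
          (b.1 - a.1) * (p.2 - a.2) = (b.2 - a.2) * (p.1 - a.1)) →
        ∃ a ∈ S', ∃ b ∈ S', a ≠ b ∧
          (b.1 - a.1) * (p.2 - a.2) = (b.2 - a.2) * (p.1 - a.1) := by
      rintro X hX ⟨a, ha, b, hb, h⟩
      exact ⟨a, hX ha, b, hX hb, h⟩
    have hmz : (m : ℤ) = 2 * (k * s : ℤ) := by simp only [hm]; push_cast; ring
    by_cases hc : (2 * (k * s : ℤ) < p.1 ∧ p.1 ≤ n - 2 * (k * s : ℤ)) ∨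
      (2 * (k * s : ℤ) < p.2 ∧ p.2 ≤ n - 2 * (k * s : ℤ))
    · exact lift _ Finset.subset_union_left (central_cover n k s hk hs hsk hn p hp hc)
    · rw [← hmz] at hc
      push Not at hc
      obtain ⟨hc1, hc2⟩ := hc
      have hpg := mem_grid.mp hp
      obtain ⟨⟨hx1, hx2⟩, hy1, hy2⟩ := hpg
      have s1 : shift 0 0 S ⊆ S' :=
        Finset.subset_union_left.trans Finset.subset_union_right
      have s2 : shift 0 d S ⊆ S' :=
        (Finset.subset_union_left.trans Finset.subset_union_right).trans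
          Finset.subset_union_right
      have s3 : shift d 0 S ⊆ S' :=
        ((Finset.subset_union_left.trans Finset.subset_union_right).trans
          Finset.subset_union_right).trans Finset.subset_union_right
      have s4 : shift d d S ⊆ S' :=
        ((Finset.subset_union_right.trans Finset.subset_union_right).trans
          Finset.subset_union_right).trans Finset.subset_union_right
      by_cases hx : p.1 ≤ m
      · by_cases hy : p.2 ≤ m
        · refine lift _ s1 (shift_cover hcov 0 0 p ?_)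
          rw [mem_grid]; refine ⟨⟨?_, ?_⟩, ?_, ?_⟩ <;> simp only <;> omega
        · refine lift _ s2 (shift_cover hcov 0 d p ?_)
          have := hc2 (by omega)
          rw [mem_grid]; refine ⟨⟨?_, ?_⟩, ?_, ?_⟩ <;> simp only [d] <;> omega
      · have hxx := hc1 (by omega)
        by_cases hy : p.2 ≤ m
        · refine lift _ s3 (shift_cover hcov d 0 p ?_)
          rw [mem_grid]; refine ⟨⟨?_, ?_⟩, ?_, ?_⟩ <;> simp only [d] <;> omega
        · refine lift _ s4 (shift_cover hcov d d p ?_)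
          have := hc2 (by omega)
          rw [mem_grid]; refine ⟨⟨?_, ?_⟩, ?_, ?_⟩ <;> simp only [d] <;> omega
  · have hle : S'.card ≤ (coarse n k).card + ((shift 0 0 S).card + ((shift 0 d S).card +
          ((shift d 0 S).card + (shift d d S).card))) := by
      refine (Finset.card_union_le _ _).trans (Nat.add_le_add_left ?_ _)
      refine (Finset.card_union_le _ _).trans (Nat.add_le_add_left ?_ _)
      refine (Finset.card_union_le _ _).trans (Nat.add_le_add_left ?_ _)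
      exact Finset.card_union_le _ _
    have h0 := coarse_card n k
    have h1 := shift_card 0 0 S
    have h2 := shift_card 0 d S
    have h3 := shift_card d 0 S
    have h4 := shift_card d d S
    linarith

lemma grid_card (n : ℕ) : (grid n).card = n ^ 2 := by
  unfold grid
  rw [Finset.card_product]
  simp only [Int.card_Icc]
  have : ((n:ℤ) + 1 - 1).toNat = n := by
    rw [add_sub_cancel_right]
    exact Int.toNat_natCast _
  rw [this]; ring

lemma grid_covers (n : ℕ) (hn : 2 ≤ n) : Covers n (grid n) := by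
  intro p hp
  have hpg := mem_grid.mp hp
  obtain ⟨⟨hx1, hx2⟩, hy1, hy2⟩ := hpg
  by_cases h : p.1 < n
  · refine ⟨p, hp, (p.1 + 1, p.2), ?_, ?_, ?_⟩
    · rw [mem_grid]; refine ⟨⟨?_, ?_⟩, ?_, ?_⟩ <;> simp only <;> omega
    · intro he
      have := congrArg Prod.fst he
      simp only at this
      omega
    · simp
  · refine ⟨p, hp, (p.1 - 1, p.2), ?_, ?_, ?_⟩
    · rw [mem_grid]; refine ⟨⟨?_, ?_⟩, ?_, ?_⟩ <;> simp only <;> omega
    · intro he
      have := congrArg Prod.fst he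
      simp only at this
      omega
    · simp

lemma upper : ∀ n : ℕ, 2 ≤ n → ∃ S : Finset (ℤ × ℤ), S ⊆ grid n ∧ Covers n S ∧
    (S.card : ℝ) ≤ 10000 * (n:ℝ) ^ ((2:ℝ) / 3) := by
  intro n
  induction n using Nat.strong_induction_on with
  | _ n ih =>
  intro hn
  set N : ℝ := (n:ℝ) ^ ((2:ℝ) / 3) with hN
  have hn0 : (0:ℝ) < n := by positivity
  have hNpos : 0 < N := Real.rpow_pos_of_pos hn0 _
  have hN3 : N ^ 3 = (n:ℝ) ^ 2 := by
    rw [hN, ← Real.rpow_natCast, ← Real.rpow_mul hn0.le, ← Real.rpow_natCast]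
    norm_num
  by_cases hsmall : N < 29
  · refine ⟨grid n, Finset.Subset.refl _, grid_covers n hn, ?_⟩
    rw [grid_card]
    push_cast
    rw [← hN3]
    nlinarith [sq_nonneg N, mul_pos hNpos hNpos]
  · push Not at hsmall
    set K : ℕ := ⌊N / 29⌋₊ with hK
    have hK1 : 1 ≤ K := by
      rw [hK, Nat.one_le_floor_iff]
      rw [le_div_iff₀ (by norm_num)]
      linarith
    have hKle : (K:ℝ) ≤ N / 29 := Nat.floor_le (by positivity)
    have hKge : N / 58 ≤ (K:ℝ) := by
      have h1 : N / 29 < K + 1 := Nat.lt_floor_add_one _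
      have h2 : (1:ℝ) ≤ K := by exact_mod_cast hK1
      have : N / 29 = 2 * (N / 58) := by ring
      linarith
    obtain ⟨k, hkp, hkK, hk2⟩ := Nat.exists_prime_lt_and_le_two_mul K (by omega)
    set s : ℕ := Nat.sqrt k with hs
    have hs1 : k < (s + 1) ^ 2 := by
      have := Nat.lt_succ_sqrt k
      rw [Nat.succ_eq_add_one] at this
      rw [pow_two]; exact this
    have hs2 : s * s ≤ k := Nat.sqrt_le k
    have hspos : 0 < s := Nat.sqrt_pos.mpr hkp.pos
    have hsk : s < k := by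
      have := hkp.two_le
      by_contra hcon
      push Not at hcon
      have : k * k ≤ s * s := Nat.mul_le_mul hcon hcon
      nlinarith
    have hk2r : (k:ℝ) ≤ 2 * K := by exact_mod_cast hk2
    -- (2 k s)^2 ≤ (n/27)^2
    have hmain : 2 * ((k:ℝ) * (s:ℝ)) ≤ (n:ℝ) / 27 := by
      have h1 : ((s:ℝ) * s) ≤ k := by exact_mod_cast hs2
      have hk0 : (0:ℝ) ≤ k := by positivity
      have hk3 : (k:ℝ) ^ 3 ≤ (2 * (N / 29)) ^ 3 := by
        apply pow_le_pow_left₀ hk0
        linarith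
      have hsq : (2 * ((k:ℝ) * (s:ℝ))) ^ 2 ≤ ((n:ℝ) / 27) ^ 2 := by
        calc (2 * ((k:ℝ) * (s:ℝ))) ^ 2 = 4 * (k:ℝ) ^ 2 * ((s:ℝ) * s) := by ring
          _ ≤ 4 * (k:ℝ) ^ 2 * (k:ℝ) := by gcongr
          _ = 4 * (k:ℝ) ^ 3 := by ring
          _ ≤ 4 * (2 * (N / 29)) ^ 3 := by linarith
          _ = 32 / 24389 * N ^ 3 := by ring
          _ = 32 / 24389 * (n:ℝ) ^ 2 := by rw [hN3]
          _ ≤ ((n:ℝ) / 27) ^ 2 := by
            have : (0:ℝ) ≤ (n:ℝ) ^ 2 := by positivity
            nlinarith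
      exact le_of_sq_le_sq hsq (by positivity)
    set m : ℕ := 2 * (k * s) with hm
    have hmr : (m:ℝ) ≤ n / 27 := by
      rw [hm]; push_cast; exact hmain
    have hm2 : 2 ≤ m := by
      have : 1 ≤ k * s := Nat.mul_pos hkp.pos hspos
      omega
    have hmn' : 27 * m ≤ n := by
      have : (27:ℝ) * m ≤ n := by linarith
      exact_mod_cast this
    obtain ⟨S, hSg, hSc, hScard⟩ := ih m (by omega) hm2
    obtain ⟨S', hS'g, hS'c, hS'card⟩ := step n k s hkp hs1 hsk (by omega) S hSg hSc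
    refine ⟨S', hS'g, hS'c, ?_⟩
    have h1 : (S'.card : ℝ) ≤ ((n / k : ℕ):ℝ) ^ 2 + 4 * S.card := by exact_mod_cast hS'card
    have h2 : ((n / k : ℕ):ℝ) ≤ (n:ℝ) / k := Nat.cast_div_le
    have hKpos : (0:ℝ) < K := by exact_mod_cast hK1
    have hkpos : (0:ℝ) < k := by exact_mod_cast hkp.pos
    have hkK' : (K:ℝ) ≤ k := by exact_mod_cast hkK.le
    have h3 : ((n / k : ℕ):ℝ) ^ 2 ≤ 3364 * N := by
      have h4 : ((n / k : ℕ):ℝ) ^ 2 ≤ ((n:ℝ) / k) ^ 2 := by
        apply pow_le_pow_left₀ (by positivity) h2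
      have h5 : ((n:ℝ) / k) ^ 2 ≤ 3364 * N := by
        rw [div_pow, div_le_iff₀ (by positivity), ← hN3]
        have h6 : N / 58 ≤ k := hKge.trans hkK'
        have h7 : (N / 58) ^ 2 ≤ (k:ℝ) ^ 2 := pow_le_pow_left₀ (by positivity) h6 2
        nlinarith
      exact h4.trans h5
    have h8 : (m:ℝ) ^ ((2:ℝ) / 3) ≤ N / 9 := by
      have h9 : (m:ℝ) ^ ((2:ℝ) / 3) ≤ ((n:ℝ) / 27) ^ ((2:ℝ) / 3) :=
        Real.rpow_le_rpow (by positivity) hmr (by norm_num)
      have h10 : ((n:ℝ) / 27) ^ ((2:ℝ) / 3) = N / 9 := by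
        rw [Real.div_rpow hn0.le (by norm_num), ← hN]
        congr 1
        rw [show (27:ℝ) = 3 ^ (3:ℝ) by norm_num, ← Real.rpow_mul (by norm_num)]
        norm_num
      rw [h10] at h9
      exact h9
    calc (S'.card : ℝ) ≤ ((n / k : ℕ):ℝ) ^ 2 + 4 * S.card := h1
      _ ≤ 3364 * N + 4 * (10000 * (m:ℝ) ^ ((2:ℝ) / 3)) := by linarith
      _ ≤ 3364 * N + 4 * (10000 * (N / 9)) := by linarith
      _ ≤ 10000 * N := by linarith

/-- Pairs consisting of a factor `g` and a coordinate `y` with `|y| ≤ m`. -/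
noncomputable def box (n m : ℕ) : Finset (ℤ × ℤ) :=
  Finset.Icc (1:ℤ) ((n / m : ℕ):ℤ) ×ˢ Finset.Icc (-(m:ℤ)) (m:ℤ)

/-- Vectors `g v` with `v` of sup norm `m` and `1 ≤ g ≤ n / m`. -/
noncomputable def nearOne (n m : ℕ) : Finset (ℤ × ℤ) :=
  ((box n m).image (fun v : ℤ × ℤ => (v.1 * (m:ℤ), v.1 * v.2))) ∪
    (((box n m).image (fun v : ℤ × ℤ => (-(v.1 * (m:ℤ)), v.1 * v.2))) ∪
    (((box n m).image (fun v : ℤ × ℤ => (v.1 * v.2, v.1 * (m:ℤ)))) ∪
    ((box n m).image (fun v : ℤ × ℤ => (v.1 * v.2, -(v.1 * (m:ℤ)))))))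

/-- Vectors `g v` with `v` of sup norm between 1 and `M` and `g |v| ≤ n`. -/
noncomputable def near (n M : ℕ) : Finset (ℤ × ℤ) :=
  (Finset.Icc 1 M).biUnion (fun m => nearOne n m)

lemma nearOne_card (n m : ℕ) (hm : 1 ≤ m) : (nearOne n m).card ≤ 12 * n := by
  have hbox : (box n m).card = (n / m) * (2 * m + 1) := by
    unfold box
    rw [Finset.card_product, Int.card_Icc, Int.card_Icc]
    congr 1
    · rw [add_sub_cancel_right]; exact Int.toNat_natCast _
    · omega
  have hnm : (n / m) * m ≤ n := Nat.div_mul_le_self n m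
  have hnm1 : n / m ≤ (n / m) * m := Nat.le_mul_of_pos_right _ (by omega)
  have hb : (n / m) * (2 * m + 1) ≤ 3 * n := by
    calc (n / m) * (2 * m + 1) = 2 * ((n / m) * m) + n / m := by ring
      _ ≤ 3 * n := by omega
  rw [← hbox] at hb
  unfold nearOne
  refine (Finset.card_union_le _ _).trans ?_
  refine (Nat.add_le_add_left (Finset.card_union_le _ _) _).trans ?_
  refine (Nat.add_le_add_left (Nat.add_le_add_left (Finset.card_union_le _ _) _) _).trans ?_
  have e : 12 * n = 3 * n + (3 * n + (3 * n + 3 * n)) := by ring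
  rw [e]
  exact Nat.add_le_add (Finset.card_image_le.trans hb) (Nat.add_le_add
    (Finset.card_image_le.trans hb) (Nat.add_le_add (Finset.card_image_le.trans hb)
    (Finset.card_image_le.trans hb)))

lemma near_card (n M : ℕ) : (near n M).card ≤ 12 * n * M := by
  unfold near
  refine Finset.card_biUnion_le.trans ?_
  calc ∑ m ∈ Finset.Icc 1 M, (nearOne n m).card ≤ ∑ m ∈ Finset.Icc 1 M, 12 * n :=
        Finset.sum_le_sum (fun m hm => nearOne_card n m (Finset.mem_Icc.mp hm).1)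
    _ = 12 * n * M := by
        rw [Finset.sum_const, Nat.card_Icc, smul_eq_mul, Nat.add_sub_cancel]; ring

lemma line_multiple (d1 d2 e1 e2 : ℤ) (hd : ¬ (d1 = 0 ∧ d2 = 0)) (h : d1 * e2 = d2 * e1) :
    ∃ j : ℤ, e1 = j * (d1 / Int.gcd d1 d2) ∧ e2 = j * (d2 / Int.gcd d1 d2) := by
  have hg0 : Int.gcd d1 d2 ≠ 0 := by
    intro h0
    rw [Int.gcd_eq_zero_iff] at h0
    exact hd h0
  set g : ℤ := (Int.gcd d1 d2 : ℤ) with hg
  have hgz : g ≠ 0 := by rw [hg]; exact_mod_cast hg0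
  obtain ⟨u, hu⟩ : g ∣ d1 := Int.gcd_dvd_left _ _
  obtain ⟨w, hw⟩ : g ∣ d2 := Int.gcd_dvd_right _ _
  have hu' : d1 / g = u := by rw [hu]; exact Int.mul_ediv_cancel_left _ hgz
  have hw' : d2 / g = w := by rw [hw]; exact Int.mul_ediv_cancel_left _ hgz
  have hbez : g = d1 * Int.gcdA d1 d2 + d2 * Int.gcdB d1 d2 := Int.gcd_eq_gcd_ab d1 d2
  set α := Int.gcdA d1 d2
  set β := Int.gcdB d1 d2
  have hone : u * α + w * β = 1 := by
    have : g * (u * α + w * β) = g * 1 := by
      rw [mul_one]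
      conv_rhs => rw [hbez]
      rw [hu, hw]; ring
    exact mul_left_cancel₀ hgz this
  have huw : u * e2 = w * e1 := by
    have : g * (u * e2) = g * (w * e1) := by
      rw [← mul_assoc, ← mul_assoc, ← hu, ← hw]; exact h
    exact mul_left_cancel₀ hgz this
  refine ⟨α * e1 + β * e2, ?_, ?_⟩
  · rw [hu']; linear_combination (-e1) * hone - β * huw
  · rw [hw']; linear_combination (-e2) * hone + α * huw

lemma mem_near {n M : ℕ} {g u w : ℤ} (hg : 1 ≤ g) (huw : ¬ (u = 0 ∧ w = 0))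
    (hu : |u| ≤ M) (hw : |w| ≤ M) (h1 : |g * u| ≤ n) (h2 : |g * w| ≤ n) :
    (g * u, g * w) ∈ near n M := by
  unfold near
  rw [Finset.mem_biUnion]
  have hmain : ∀ m : ℕ, 1 ≤ m → g * m ≤ n → ∀ y : ℤ, |y| ≤ m → (g, y) ∈ box n m := by
    intro m hm hgm y hy
    unfold box
    rw [Finset.mem_product, Finset.mem_Icc, Finset.mem_Icc]
    have hm' : (0:ℤ) < m := by exact_mod_cast hm
    refine ⟨⟨hg, ?_⟩, abs_le.mp hy⟩
    show g ≤ ((n / m : ℕ):ℤ)
    rw [Int.natCast_div, Int.le_ediv_iff_mul_le hm']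
    exact hgm
  have hg0 : (0:ℤ) ≤ g := by omega
  rw [abs_mul, abs_of_nonneg hg0] at h1 h2
  have hua := abs_nonneg u
  have hwa := abs_nonneg w
  have hcu : ((u.natAbs : ℕ) : ℤ) = |u| := Int.natCast_natAbs u
  have hcw : ((w.natAbs : ℕ) : ℤ) = |w| := Int.natCast_natAbs w
  rcases le_total |w| |u| with hle | hle
  · have hu0 : |u| ≠ 0 := by
      intro h0
      exact huw ⟨abs_eq_zero.mp h0, abs_eq_zero.mp (by omega)⟩
    have hm1 : 1 ≤ u.natAbs := by omega
    refine ⟨u.natAbs, Finset.mem_Icc.mpr ⟨hm1, by omega⟩, ?_⟩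
    have hb := hmain u.natAbs hm1 (by rw [hcu]; exact h1) w (by rw [hcu]; exact hle)
    unfold nearOne
    rcases le_total 0 u with hs | hs
    · apply Finset.mem_union_left
      refine Finset.mem_image.mpr ⟨(g, w), hb, ?_⟩
      simp only [hcu, abs_of_nonneg hs]
    · apply Finset.mem_union_right
      apply Finset.mem_union_left
      refine Finset.mem_image.mpr ⟨(g, w), hb, ?_⟩
      simp only [hcu, abs_of_nonpos hs]
      ext <;> simp
  · have hw0 : |w| ≠ 0 := by
      intro h0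
      exact huw ⟨abs_eq_zero.mp (by omega), abs_eq_zero.mp h0⟩
    have hm1 : 1 ≤ w.natAbs := by omega
    refine ⟨w.natAbs, Finset.mem_Icc.mpr ⟨hm1, by omega⟩, ?_⟩
    have hb := hmain w.natAbs hm1 (by rw [hcw]; exact h2) u (by rw [hcw]; exact hle)
    unfold nearOne
    rcases le_total 0 w with hs | hs
    · apply Finset.mem_union_right
      apply Finset.mem_union_right
      apply Finset.mem_union_left
      refine Finset.mem_image.mpr ⟨(g, u), hb, ?_⟩
      simp only [hcw, abs_of_nonneg hs]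
    · apply Finset.mem_union_right
      apply Finset.mem_union_right
      apply Finset.mem_union_right
      refine Finset.mem_image.mpr ⟨(g, u), hb, ?_⟩
      simp only [hcw, abs_of_nonpos hs]
      ext <;> simp

lemma star_bound (n M : ℕ) (hM : 1 ≤ M) (S : Finset (ℤ × ℤ))
    (a : ℤ × ℤ) (ha : a ∈ grid n) :
    ((grid n).filter (fun p => ∃ b ∈ S, a ≠ b ∧
      (b.1 - a.1) * (p.2 - a.2) = (b.2 - a.2) * (p.1 - a.1))).card ≤
      1 + 12 * n * M + S.card * (2 * (n / M) + 1) := by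
  classical
  let far : ℤ × ℤ → Finset (ℤ × ℤ) := fun b =>
    (Finset.Icc (-((n / M : ℕ):ℤ)) ((n / M : ℕ):ℤ)).image (fun j =>
      (j * ((b.1 - a.1) / Int.gcd (b.1 - a.1) (b.2 - a.2)),
        j * ((b.2 - a.2) / Int.gcd (b.1 - a.1) (b.2 - a.2))))
  have hfar : ∀ b, (far b).card ≤ 2 * (n / M) + 1 := by
    intro b
    refine Finset.card_image_le.trans ?_
    rw [Int.card_Icc]
    omega
  let U : Finset (ℤ × ℤ) := {((0:ℤ), (0:ℤ))} ∪ (near n M ∪ S.biUnion far)
  have hU : U.card ≤ 1 + 12 * n * M + S.card * (2 * (n / M) + 1) := by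
    refine (Finset.card_union_le _ _).trans ?_
    refine (Nat.add_le_add_left (Finset.card_union_le _ _) _).trans ?_
    have h1 := near_card n M
    have h2 : (S.biUnion far).card ≤ S.card * (2 * (n / M) + 1) :=
      Finset.card_biUnion_le_card_mul _ _ _ (fun b _ => hfar b)
    rw [Finset.card_singleton]
    omega
  refine le_trans ?_ hU
  refine Finset.card_le_card_of_injOn (fun p => (p.1 - a.1, p.2 - a.2)) ?_ ?_
  · intro p hp
    rw [Finset.mem_coe, Finset.mem_filter] at hp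
    obtain ⟨hpg, b, hb, hne, hcol⟩ := hp
    have hpg' := mem_grid.mp hpg
    have hag' := mem_grid.mp ha
    obtain ⟨⟨hp1, hp2⟩, hp3, hp4⟩ := hpg'
    obtain ⟨⟨ha1, ha2⟩, ha3, ha4⟩ := hag'
    rw [Finset.mem_coe]
    have hd : ¬ (b.1 - a.1 = 0 ∧ b.2 - a.2 = 0) := by
      rintro ⟨h1, h2⟩
      apply hne
      ext <;> omega
    obtain ⟨j, hj1, hj2⟩ := line_multiple _ _ _ _ hd hcol
    set u := (b.1 - a.1) / Int.gcd (b.1 - a.1) (b.2 - a.2) with hu
    set w := (b.2 - a.2) / Int.gcd (b.1 - a.1) (b.2 - a.2) with hw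
    by_cases hj0 : j = 0
    · apply Finset.mem_union_left
      rw [Finset.mem_singleton]
      simp only [hj1, hj2, hj0, zero_mul]
    have huw : ¬ (u = 0 ∧ w = 0) := by
      rintro ⟨h1, h2⟩
      -- both quotients vanish
      obtain ⟨i, hi1, hi2⟩ := line_multiple (b.1 - a.1) (b.2 - a.2) (b.1 - a.1) (b.2 - a.2) hd
        (by ring)
      rw [← hu, ← hw] at *
      apply hd
      rw [h1] at hi1
      rw [h2] at hi2
      constructor
      · simpa using hi1
      · simpa using hi2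
    have hn1 : |j * u| ≤ n := by rw [← hj1, abs_le]; constructor <;> omega
    have hn2 : |j * w| ≤ n := by rw [← hj2, abs_le]; constructor <;> omega
    apply Finset.mem_union_right
    by_cases hbig : |u| ≤ M ∧ |w| ≤ M
    · apply Finset.mem_union_left
      simp only
      rw [hj1, hj2]
      rcases lt_or_gt_of_ne hj0 with hneg | hpos
      · have := mem_near (n := n) (M := M) (g := -j) (u := -u) (w := -w) (by omega)
          (by simpa using huw) (by simpa using hbig.1) (by simpa using hbig.2)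
          (by simpa using hn1) (by simpa using hn2)
        simpa using this
      · exact mem_near (n := n) (M := M) (by omega) huw hbig.1 hbig.2 hn1 hn2
    · apply Finset.mem_union_right
      rw [Finset.mem_biUnion]
      refine ⟨b, hb, ?_⟩
      rw [Finset.mem_image]
      refine ⟨j, ?_, ?_⟩
      · have hj : |j| ≤ ((n / M : ℕ):ℤ) := by
          push_cast
          have hMpos : (0:ℤ) < M := by exact_mod_cast hM
          rw [Int.le_ediv_iff_mul_le hMpos]
          rw [abs_mul] at hn1 hn2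
          have hjn := abs_nonneg j
          by_cases h1 : |u| ≤ M
          · have h2 : (M:ℤ) < |w| := by
              by_contra hcon
              exact hbig ⟨h1, by omega⟩
            nlinarith
          · push Not at h1
            nlinarith
        rw [Finset.mem_Icc]
        exact abs_le.mp hj
      · simp only [← hu, ← hw]
        rw [hj1, hj2]
  · intro p _ q _ h
    simp only [Prod.mk.injEq] at h
    ext <;> omega

lemma lower (n : ℕ) (hn : 1 ≤ n) (S : Finset (ℤ × ℤ)) (hS : S ⊆ grid n) (hcov : Covers n S) :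
    (1 / 10 : ℝ) * (n:ℝ) ^ ((2:ℝ) / 3) ≤ S.card := by
  classical
  set T := S.card with hT
  have hTpos : 1 ≤ T := by
    have hp : ((1:ℤ), (1:ℤ)) ∈ grid n := by
      rw [mem_grid]; simp only; omega
    obtain ⟨a, ha, _⟩ := hcov _ hp
    exact Finset.card_pos.mpr ⟨a, ha⟩
  have hTn : T ≤ n ^ 2 := by
    rw [← grid_card n]
    exact Finset.card_le_card hS
  set M := Nat.sqrt T with hM
  have hM1 : 1 ≤ M := Nat.sqrt_pos.mpr hTpos
  have hM2 : M * M ≤ T := Nat.sqrt_le T
  have hM3 : T < (M + 1) * (M + 1) := Nat.lt_succ_sqrt T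
  have hMn : M ≤ n := by
    by_contra hcon
    push Not at hcon
    have : n * n < M * M := Nat.mul_self_lt_mul_self hcon
    nlinarith
  -- counting
  have hcount : n ^ 2 ≤ T * (1 + 12 * n * M + T * (2 * (n / M) + 1)) := by
    rw [← grid_card n]
    have hsub : grid n ⊆ S.biUnion (fun a => (grid n).filter (fun p => ∃ b ∈ S, a ≠ b ∧
      (b.1 - a.1) * (p.2 - a.2) = (b.2 - a.2) * (p.1 - a.1))) := by
      intro p hp
      obtain ⟨a, ha, b, hb, hne, hcol⟩ := hcov p hp
      rw [Finset.mem_biUnion]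
      exact ⟨a, ha, Finset.mem_filter.mpr ⟨hp, b, hb, hne, hcol⟩⟩
    refine (Finset.card_le_card hsub).trans ?_
    exact Finset.card_biUnion_le_card_mul _ _ _ (fun a ha => star_bound n M hM1 S a (hS ha))
  -- real estimates
  have hnM : (n / M) * M ≤ n := Nat.div_mul_le_self n M
  have hT4 : T ≤ 3 * (M * M) := by nlinarith
  have hT5 : T ≤ 3 * (M * n) := hT4.trans (by nlinarith)
  have h6 : T * (n / M) ≤ 3 * (M * n) := by
    calc T * (n / M) ≤ 3 * (M * M) * (n / M) := Nat.mul_le_mul_right _ hT4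
      _ = 3 * M * ((n / M) * M) := by ring
      _ ≤ 3 * M * n := Nat.mul_le_mul_left _ hnM
      _ = 3 * (M * n) := by ring
  have h7 : 1 ≤ M * n := Nat.mul_pos hM1 hn
  have h8 : 1 + 12 * n * M + T * (2 * (n / M) + 1) ≤ 22 * (M * n) := by
    have e1 : T * (2 * (n / M) + 1) = 2 * (T * (n / M)) + T := by ring
    have e2 : 12 * n * M = 12 * (M * n) := by ring
    rw [e1, e2]
    omega
  have h9 : n ^ 2 ≤ T * (22 * (M * n)) := hcount.trans (Nat.mul_le_mul_left _ h8)
  have h10 : n ≤ 22 * (T * M) := by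
    have : n * n ≤ n * (22 * (T * M)) := by
      calc n * n = n ^ 2 := by ring
        _ ≤ T * (22 * (M * n)) := h9
        _ = n * (22 * (T * M)) := by ring
    exact Nat.le_of_mul_le_mul_left this hn
  have h11 : n ^ 2 ≤ 484 * T ^ 3 := by
    calc n ^ 2 ≤ (22 * (T * M)) ^ 2 := Nat.pow_le_pow_left h10 2
      _ = 484 * T ^ 2 * (M * M) := by ring
      _ ≤ 484 * T ^ 2 * T := Nat.mul_le_mul_left _ hM2
      _ = 484 * T ^ 3 := by ring
  set N : ℝ := (n:ℝ) ^ ((2:ℝ) / 3) with hN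
  have hn0 : (0:ℝ) < n := by exact_mod_cast hn
  have hNpos : 0 < N := Real.rpow_pos_of_pos hn0 _
  have hN3 : N ^ 3 = (n:ℝ) ^ 2 := by
    rw [hN, ← Real.rpow_natCast, ← Real.rpow_mul hn0.le, ← Real.rpow_natCast]
    norm_num
  have h12 : N ^ 3 ≤ (10 * (T:ℝ)) ^ 3 := by
    rw [hN3]
    have : ((n ^ 2 : ℕ):ℝ) ≤ ((484 * T ^ 3 : ℕ):ℝ) := by exact_mod_cast h11
    push_cast at this
    have hT3 : (0:ℝ) ≤ (T:ℝ) ^ 3 := by positivity
    nlinarith
  have h13 : N ≤ 10 * T := le_of_pow_le_pow_left₀ (by norm_num) (by positivity) h12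
  linarith

/-- The order of magnitude of `t n` is exactly `n ^ (2/3)`. -/
theorem result : ∃ c C : ℝ, 0 < c ∧ 0 < C ∧ ∀ n : ℕ, 2 ≤ n →
    c * (n:ℝ) ^ ((2:ℝ) / 3) ≤ (t n : ℝ) ∧ (t n : ℝ) ≤ C * (n:ℝ) ^ ((2:ℝ) / 3) := by
  refine ⟨1 / 10, 10000, by norm_num, by norm_num, ?_⟩
  intro n hn
  obtain ⟨S, hSg, hSc, hcard⟩ := upper n hn
  have hmem : S.card ∈ {m : ℕ | ∃ S : Finset (ℤ × ℤ), S ⊆ grid n ∧ S.card = m ∧ Covers n S} :=
    ⟨S, hSg, rfl, hSc⟩
  constructor
  · obtain ⟨S', hS'g, hS'card, hS'c⟩ := Nat.sInf_mem ⟨_, hmem⟩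
    have := lower n (by omega) S' hS'g hS'c
    rw [hS'card] at this
    exact this
  · have h1 : t n ≤ S.card := Nat.sInf_le hmem
    have h2 : (t n : ℝ) ≤ (S.card : ℝ) := by exact_mod_cast h1
    exact h2.trans hcard

end Pool.Agent.Results.MP_360bac_co.ThetaTwoThirds
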